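import Pool.Agent.Helper66_BN.Stmts

/-!
# Squad PP, part BN, module BFR
-/

open scoped BigOperators

noncomputable section

namespace Pool.Agent.PP.BN.H21

open Pool.Agent.Helper51_AWC Pool.Agent.Helper79_WRA Pool.Agent.PP

/-- an `ℓ`-group acting on a group of exponent `ℓ`: every orbit generates a nonzero fixed
element -/
theorem exists_fixed {ℓ : ℕ} (hℓ : ℓ.Prime) {R V : Type} [Group R] [Finite R] [AddCommGroup V]
    [Module (ZMod ℓ) V] (hV : ∀ v : V, ℓ • v = 0) (hR : IsPGroup ℓ R) (act : R → V →+ V)
    (h1 : ∀ v, act 1 v = v) (hm : ∀ r s v, act (r * s) v = act r (act s v)) (v0 : V)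
    (hv0 : v0 ≠ 0) :
    ∃ v ∈ AddSubgroup.closure (Set.range fun r => act r v0), v ≠ 0 ∧ ∀ r, act r v = v := by
  have : Fact ℓ.Prime := ⟨hℓ⟩
  let S : Submodule (ZMod ℓ) V := Submodule.span (ZMod ℓ) (Set.range fun r => act r v0)
  have hSfin : Finite ↥S := by
    have : Module.Finite (ZMod ℓ) ↥S := Module.Finite.span_of_finite _ (Set.finite_range _)
    exact Module.finite_of_finite (ZMod ℓ)
  let W := AddSubgroup.closure (Set.range fun r => act r v0)
  have hWS : ∀ w ∈ W, w ∈ S := by
    intro w hw
    induction hw using AddSubgroup.closure_induction with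
    | mem x hx => exact Submodule.subset_span hx
    | zero => exact S.zero_mem
    | add x y _ _ hx hy => exact S.add_mem hx hy
    | neg x _ hx => exact S.neg_mem hx
  have hWfin : Finite W := Finite.of_injective (fun w : W => (⟨w, hWS w w.2⟩ : S)) (by
    intro a b hab
    exact Subtype.ext (congrArg (fun x : S => (x : V)) hab))
  have hstab : ∀ r : R, ∀ w ∈ W, act r w ∈ W := by
    intro r w hw
    induction hw using AddSubgroup.closure_induction with
    | mem x hx =>
      obtain ⟨s, rfl⟩ := hx
      apply AddSubgroup.subset_closure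
      exact ⟨r * s, hm r s v0⟩
    | zero => rw [map_zero]; exact W.zero_mem
    | add x y _ _ hx hy => rw [map_add]; exact W.add_mem hx hy
    | neg x _ hx => rw [map_neg]; exact W.neg_mem hx
  let _ : MulAction R W :=
    { smul := fun r w => ⟨act r w, hstab r w w.2⟩
      one_smul := fun w => Subtype.ext (h1 w)
      mul_smul := fun r s w => Subtype.ext (hm r s w) }
  have hv0W : v0 ∈ W := AddSubgroup.subset_closure ⟨1, h1 v0⟩
  have hdvd : ℓ ∣ Nat.card W := by
    have h1 : addOrderOf (⟨v0, hv0W⟩ : W) = ℓ := by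
      apply addOrderOf_eq_prime
      · exact Subtype.ext (hV v0)
      · intro h
        exact hv0 (congrArg Subtype.val h)
    have h2 : addOrderOf (⟨v0, hv0W⟩ : W) ∣ Nat.card W := addOrderOf_dvd_natCard _
    rwa [h1] at h2
  obtain ⟨b, hb, hne⟩ := hR.exists_fixed_point_of_prime_dvd_card_of_fixed_point W hdvd
    (a := (0 : W)) (fun r => Subtype.ext (map_zero (act r)))
  refine ⟨b, b.2, ?_, ?_⟩
  · intro h
    exact hne (Subtype.ext h.symm)
  · intro r
    exact congrArg Subtype.val (hb r)

/-- If the sum of the elements of `U` does not act as zero, then the identity is a trace from `1`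
to `U`. -/
theorem fre (hcyc : CycStmt) (hehw : EhwStmt) : FreStmt := by
  intro ℓ _ F _ hF G _ _ U T n hR k ρ hρ hS
  classical
  have := hF.char
  have hfin := Fintype.ofFinite U
  obtain ⟨v, μ, hv, hvU, hvT, -⟩ := hehw ℓ F hF G U T n hR k ρ hρ
  have hc : ∀ w : Fin k → F, ∃ a : U → F, w = ∑ u : U, a u • (ρ (u * n)).mulVec v := by
    intro w
    obtain ⟨a, ha⟩ := hcyc ℓ F hF G U T n hR k ρ hρ v μ hv hvU hvT w
    exact ⟨a, by rw [ha, finsum_eq_sum_of_fintype]⟩
  have hx : ∀ u w : U, (ρ u).mulVec ((ρ (w * n)).mulVec v) = (ρ ((u * w : U) * n)).mulVec v := by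
    intro u w
    rw [Matrix.mulVec_mulVec, ← map_mul, Subgroup.coe_mul, mul_assoc]
  -- the sum of the vectors `u n v` is not zero
  have hs : ∑ u : U, (ρ (u * n)).mulVec v ≠ 0 := by
    intro h0
    apply hS
    unfold SZ
    rw [finsum_eq_sum_of_fintype]
    apply Matrix.ext_of_mulVec_single
    intro j
    obtain ⟨a, ha⟩ := hc (Pi.single j 1)
    rw [ha, Matrix.zero_mulVec, Matrix.sum_mulVec]
    calc ∑ u : U, (ρ u).mulVec (∑ w : U, a w • (ρ (w * n)).mulVec v) =
        ∑ u : U, ∑ w : U, a w • (ρ ((u * w : U) * n)).mulVec v := by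
          apply Finset.sum_congr rfl
          intro u _
          rw [Matrix.mulVec_sum]
          apply Finset.sum_congr rfl
          intro w _
          rw [Matrix.mulVec_smul, hx]
      _ = ∑ w : U, a w • ∑ u : U, (ρ ((u * w : U) * n)).mulVec v := by
          rw [Finset.sum_comm]
          apply Finset.sum_congr rfl
          intro w _
          rw [Finset.smul_sum]
      _ = 0 := by
          apply Finset.sum_eq_zero
          intro w _
          rw [Fintype.sum_equiv (Equiv.mulRight w) (fun u : U => (ρ ((u * w : U) * n)).mulVec v)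
            (fun u : U => (ρ (u * n)).mulVec v) (fun u => rfl), h0, smul_zero]
  -- linear independence
  have hli : ∀ a : U → F, ∑ u : U, a u • (ρ (u * n)).mulVec v = 0 → a = 0 := by
    intro a ha
    by_contra hne
    have hV : ∀ b : U → F, ℓ • b = 0 := by
      intro b
      funext u
      change ℓ • b u = 0
      rw [nsmul_eq_mul, CharP.cast_eq_zero, zero_mul]
    let act : U → (U → F) →+ (U → F) := fun r =>
      { toFun := fun b u => b (r⁻¹ * u)
        map_zero' := rfl
        map_add' := fun _ _ => rfl }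
    let _ : Algebra (ZMod ℓ) F := ZMod.algebra F ℓ
    obtain ⟨b, hb, hb0, hbf⟩ := exists_fixed hF.prime hV hR.pU act (fun b => by
      funext u
      change b (1⁻¹ * u) = b u
      rw [inv_one, one_mul]) (fun r s b => by
      funext u
      change b ((r * s)⁻¹ * u) = b (s⁻¹ * (r⁻¹ * u))
      rw [mul_inv_rev, mul_assoc]) a hne
    let Λ : (U → F) →+ (Fin k → F) :=
      { toFun := fun b => ∑ u : U, b u • (ρ (u * n)).mulVec v
        map_zero' := Finset.sum_eq_zero fun u _ => zero_smul _ _
        map_add' := fun b c => by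
          rw [← Finset.sum_add_distrib]
          exact Finset.sum_congr rfl fun u _ => add_smul _ _ _ }
    have hker : ∑ u : U, b u • (ρ (u * n)).mulVec v = 0 := by
      have hle : AddSubgroup.closure (Set.range fun r => act r a) ≤ Λ.ker := by
        rw [AddSubgroup.closure_le]
        rintro _ ⟨r, rfl⟩
        change ∑ u : U, a (r⁻¹ * u) • (ρ (u * n)).mulVec v = 0
        rw [← Fintype.sum_equiv (Equiv.mulLeft r)
          (fun u : U => a u • (ρ ((r * u : U) * n)).mulVec v) _ (fun u => by
            rw [Equiv.coe_mulLeft, inv_mul_cancel_left])]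
        calc ∑ u : U, a u • (ρ ((r * u : U) * n)).mulVec v =
            (ρ r).mulVec (∑ u : U, a u • (ρ (u * n)).mulVec v) := by
              rw [Matrix.mulVec_sum]
              apply Finset.sum_congr rfl
              intro u _
              rw [Matrix.mulVec_smul, hx]
          _ = 0 := by rw [ha, Matrix.mulVec_zero]
      exact hle hb
    have hconst : ∀ u, b u = b 1 := by
      intro u
      have h2 : b (u⁻¹ * u) = b u := congrFun (hbf u) u
      rw [← h2, inv_mul_cancel]
    have hb1 : b 1 ≠ 0 := by
      intro h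
      apply hb0
      funext u
      rw [hconst u, h]
      rfl
    apply hs
    have h3 : b 1 • ∑ u : U, (ρ (u * n)).mulVec v = 0 := by
      rw [← hker, Finset.smul_sum]
      exact Finset.sum_congr rfl fun u _ => by rw [hconst u]
    exact (smul_eq_zero.1 h3).resolve_left hb1
  -- the coordinate `a₁`
  choose a ha using hc
  have huniq : ∀ (w : Fin k → F) (b : U → F), w = ∑ u : U, b u • (ρ (u * n)).mulVec v →
      a w = b := by
    intro w b hb
    rw [← sub_eq_zero]
    apply hli
    have h2 : ∑ u : U, (a w - b) u • (ρ (u * n)).mulVec v =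
        ∑ u : U, a w u • (ρ (u * n)).mulVec v - ∑ u : U, b u • (ρ (u * n)).mulVec v := by
      rw [← Finset.sum_sub_distrib]
      exact Finset.sum_congr rfl fun u _ => sub_smul _ _ _
    rw [h2, ← ha w, ← hb, sub_self]
  let φ : (Fin k → F) →ₗ[F] (Fin k → F) :=
    { toFun := fun w => a w 1 • (ρ n).mulVec v
      map_add' := fun w w' => by
        rw [huniq (w + w') (a w + a w') (by
          conv_lhs => rw [ha w, ha w']
          rw [← Finset.sum_add_distrib]
          exact Finset.sum_congr rfl fun u _ => (add_smul _ _ _).symm)]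
        exact add_smul _ _ _
      map_smul' := fun c w => by
        rw [huniq (c • w) (c • a w) (by
          conv_lhs => rw [ha w]
          rw [Finset.smul_sum]
          exact Finset.sum_congr rfl fun u _ => smul_smul _ _ _)]
        exact (smul_smul _ _ _).symm }
  refine ⟨LinearMap.toMatrix' φ, ?_⟩
  rw [finsum_eq_sum_of_fintype]
  apply Matrix.ext_of_mulVec_single
  intro j
  set w : Fin k → F := Pi.single j 1 with hw
  rw [Matrix.one_mulVec, Matrix.sum_mulVec]
  conv_rhs => rw [ha w]
  apply Finset.sum_congr rfl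
  intro u _
  rw [← Matrix.mulVec_mulVec, ← Matrix.mulVec_mulVec, LinearMap.toMatrix'_mulVec]
  change (ρ u).mulVec (a ((ρ (u⁻¹ : G)).mulVec w) 1 • (ρ n).mulVec v) = _
  have h4 : a ((ρ (u⁻¹ : G)).mulVec w) = fun x => a w (u * x) := by
    apply huniq
    conv_lhs => rw [ha w]
    rw [Matrix.mulVec_sum]
    refine Eq.trans ?_ (Fintype.sum_equiv (Equiv.mulLeft u⁻¹)
      (fun x : U => a w x • (ρ ((u⁻¹ * x : U) * n)).mulVec v)
      (fun y : U => a w (u * y) • (ρ (y * n)).mulVec v) (fun x => by
        rw [Equiv.coe_mulLeft, mul_inv_cancel_left]))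
    apply Finset.sum_congr rfl
    intro x _
    rw [Matrix.mulVec_smul, ← hx]
    rfl
  rw [h4]
  change (ρ u).mulVec (a w (u * 1) • (ρ n).mulVec v) = _
  rw [mul_one, Matrix.mulVec_smul, Matrix.mulVec_mulVec, ← map_mul]

end Pool.Agent.PP.BN.H21
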